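import Mathlib
import Pool.Agent.H595R2.PR.Core
import Pool.Agent.H595R2.PR.FEW
import Pool.Agent.X283.DA.Pack

/-!
# Primitive roots modulo EVERY prime which is the denominator of a good rational approximation

For every `ε > 0` and `B` one polynomial-time computable list `F p` has the following property. Let `θ, y ∈ ℝ ^ d`,
`θ_i ≥ 0`, `θ_1 + ... + θ_d > ε`. For almost all `x ∈ ℝ ^ d`, for EVERY large prime `p` such that `p x_i` is within
`p ^ (-θ_i)` of `y_i` modulo `1`, for all `i`, all but a fraction `(size p) ^ (-B)` of the entries of `F p` are primitive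
roots modulo `p`. For `d = 1` the set of the exceptional `x` has Hausdorff dimension at most `(1 + ε) / (1 + θ)`.

These sets of primes are much denser than the windows around the terms of exponentially growing sequences of the starting
result `WindowsAroundDilates`: the condition `‖p x‖ ≤ p ^ (-θ)` keeps `X ^ (1 - θ)` integers up to `X`.
-/

set_option autoImplicit false

namespace Pool.Agent.Results.MP_18a8a6_lc.Denominators

open Finset
open Pool.Agent.X283.DA (ae_simultaneous dim_denominators)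

/-- `F` is computable in polynomial time: some function on bit strings computed by a Turing machine
(Mathlib's `TM2ComputableInPolyTime`) in polynomially many steps sends the binary digits of `p` to
the code of the list `F p`. -/
def PolyTimeList (F : ℕ → List ℕ) : Prop :=
  ∃ f : List Bool → List Bool, NPC.PolyTime f ∧ ∀ p : ℕ, f (Nat.bits p) = NPC.bits (F p)

/-- `g` is a primitive root modulo `p` -/
def IsPrimRoot (p g : ℕ) : Prop := orderOf (g : ZMod p) = p - 1

open Classical in
/-- all but a fraction `(size p) ^ (-B)` of the entries of the list `F p` are primitive roots modulo `p` -/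
def MostlyPrimRoots (F : ℕ → List ℕ) (B p : ℕ) : Prop :=
  p.size ^ B * #{i ∈ range (F p).length | ¬ IsPrimRoot p ((F p).getD i 0)} ≤ (F p).length

section aux

open H595R2.PR Filter Topology

theorem prim_of_gen {A C p a : ℕ} (hp : p.Prime) (h : Gen A C p a) (ht : Gam p (p.size ^ A) = ⊤) :
    IsPrimRoot p ((cands A C p).getD a 0) := by
  have : Fact p.Prime := ⟨hp⟩
  obtain ⟨u, hu1, hu2⟩ := h
  unfold IsPrimRoot
  rw [← hu1, orderOf_units, ← Nat.card_zpowers, hu2, ht, Subgroup.card_top,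
    Nat.card_eq_fintype_card, ZMod.card_units]

end aux

open Classical H595R2.PR Filter Topology MeasureTheory in
/-- For every `ε > 0` and every `B` there are `C` and a polynomial-time computable list `F p` of `n ^ C` numbers, `n`
the number of binary digits of `p`, such that:
(1) for all `θ, y ∈ ℝ ^ d` with `θ_i ≥ 0`, `θ_1 + ... + θ_d > ε` and almost all `x ∈ ℝ ^ d` there is `p₀` such that for
EVERY prime `p ≥ p₀` for which `p x_i` is within `p ^ (-θ_i)` of `y_i` modulo `1`, for all `i`, all but a fraction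
`(size p) ^ (-B)` of the entries of `F p` are primitive roots modulo `p`;
(2) for `d = 1`, `θ ≥ 0` and all `y` this holds for all real `x` outside a set of Hausdorff dimension at most
`(1 + ε) / (1 + θ)`. -/
theorem result :
    ∀ (ε : ℝ), 0 < ε → ∀ B : ℕ, ∃ (C : ℕ) (F : ℕ → List ℕ), PolyTimeList F ∧ (∀ p : ℕ, (F p).length = p.size ^ C) ∧
      (∀ (d : ℕ) (θ y : Fin d → ℝ), (∀ i, 0 ≤ θ i) → ε < ∑ i, θ i → ∀ᵐ x : Fin d → ℝ,
        ∃ p₀ : ℕ, ∀ p : ℕ, p₀ ≤ p → p.Prime → (∀ i, ∃ a : ℤ, |(p : ℝ) * x i - a - y i| ≤ (p : ℝ) ^ (-θ i)) →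
          MostlyPrimRoots F B p) ∧
      (∀ θ y : ℝ, 0 ≤ θ → ∃ E : Set ℝ, dimH E ≤ ENNReal.ofReal ((1 + ε) / (1 + θ)) ∧ ∀ x : ℝ, x ∉ E →
        ∃ p₀ : ℕ, ∀ p : ℕ, p₀ ≤ p → p.Prime → (∃ a : ℤ, |(p : ℝ) * x - a - y| ≤ (p : ℝ) ^ (-θ)) →
          MostlyPrimRoots F B p) := by
  intro ε hε B
  set ε' : ℝ := min ε (1 / 2) with hε'
  have hε0 : 0 < ε' := lt_min hε (by norm_num)
  obtain ⟨A, hA⟩ := H595R2.PR.Gam_top ε' hε0
  obtain ⟨x₁, hx₁⟩ := hA A le_rfl
  obtain ⟨p₀, hp₀⟩ := H595R2.PR.core A (A + B + 2)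
  set F := H595R2.PR.cands A (A + B + 2) with hF
  have hlen : ∀ p : ℕ, (F p).length = p.size ^ (A + B + 2) := fun p => by
    simp [hF, H595R2.PR.cands]
  have hmain : ∀ p : ℕ, p₀ ≤ p → p.Prime → H595R2.PR.Gam p (p.size ^ A) = ⊤ →
      MostlyPrimRoots F B p := by
    intro p hp hpp ht
    have h0 : #{i ∈ range (p.size ^ (A + B + 2)) | ¬ IsPrimRoot p ((F p).getD i 0)} ≤
        p.size ^ (A + 1) := by
      refine le_trans (card_le_card ?_) ((hp₀ p hp hpp).trans (by rw [pow_succ]))
      intro i hi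
      obtain ⟨h1, h2⟩ := mem_filter.1 hi
      exact mem_filter.2 ⟨h1, fun hg => h2 (prim_of_gen hpp hg ht)⟩
    unfold MostlyPrimRoots
    rw [hlen]
    calc p.size ^ B * _ ≤ p.size ^ B * p.size ^ (A + 1) := Nat.mul_le_mul_left _ h0
      _ = p.size ^ (A + B + 1) := by ring
      _ ≤ p.size ^ (A + B + 2) := Nat.pow_le_pow_right (Nat.size_pos.2 hpp.pos) (by omega)
  refine ⟨A + B + 2, F, H595R2.PR.polyTime_cands A (A + B + 2), hlen, ?_⟩
  have hcount := Pool.Agent.X16.NW.count_filter {p : ℕ | p.Prime ∧ ¬ MostlyPrimRoots F B p} (s := ε) hε.le (by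
      intro δ hδ
      refine ⟨(x₁ : ℝ) + p₀ + 1, fun X hX => ?_⟩
      have hX1 : (1 : ℝ) ≤ X := by exact_mod_cast hX
      have hXp : (1 : ℝ) ≤ (X : ℝ) ^ (ε + δ) := Real.one_le_rpow hX1 (by positivity)
      have hsub : (Ioc 0 X).filter (fun t => t ∈ {p : ℕ | p.Prime ∧ ¬ MostlyPrimRoots F B p}) ⊆
          range p₀ ∪ (range (X + 1)).filter (fun p => p.Prime ∧
            H595R2.PR.Gam p (p.size ^ A) ≠ ⊤) := by
        intro p hp
        obtain ⟨h1, h2, h3⟩ := mem_filter.1 hp
        rw [mem_union, mem_range]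
        by_contra hc
        push Not at hc
        obtain ⟨h4, h5⟩ := hc
        have h6 : H595R2.PR.Gam p (p.size ^ A) = ⊤ := by
          by_contra h7
          exact h5 (mem_filter.2 ⟨mem_range.2 (by have := (mem_Ioc.1 h1).2; omega), h2, h7⟩)
        exact h3 (hmain p h4 h2 h6)
      have h9 := (card_le_card hsub).trans (card_union_le _ _)
      rw [card_range] at h9
      have h10 : (((Ioc 0 X).filter (fun t => t ∈ {p : ℕ | p.Prime ∧ ¬ MostlyPrimRoots F B p})).card : ℝ) ≤
          p₀ + #((range (X + 1)).filter (fun p => p.Prime ∧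
          H595R2.PR.Gam p (p.size ^ A) ≠ ⊤)) := by exact_mod_cast h9
      have h11 : (#((range (X + 1)).filter (fun p => p.Prime ∧
          H595R2.PR.Gam p (p.size ^ A) ≠ ⊤)) : ℝ) ≤ (x₁ : ℝ) + (X : ℝ) ^ (ε + δ) := by
        rcases le_total x₁ X with hx | hx
        · refine (hx₁ X hx).trans ?_
          have h12 : (X : ℝ) ^ ε' ≤ (X : ℝ) ^ (ε + δ) :=
            Real.rpow_le_rpow_of_exponent_le hX1 ((min_le_left _ _).trans (by linarith))
          have h13 : (0 : ℝ) ≤ x₁ := by positivity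
          linarith
        · have h12 : (#((range (X + 1)).filter (fun p => p.Prime ∧
              H595R2.PR.Gam p (p.size ^ A) ≠ ⊤)) : ℝ) ≤ X := by
            have h13 : (range (X + 1)).filter (fun p => p.Prime ∧
                H595R2.PR.Gam p (p.size ^ A) ≠ ⊤) ⊆ Ioc 0 X := by
              intro p hp
              obtain ⟨h1, h2, _⟩ := mem_filter.1 hp
              exact mem_Ioc.2 ⟨h2.pos, by have := mem_range.1 h1; omega⟩
            have h14 := card_le_card h13
            rw [Nat.card_Ioc, Nat.sub_zero] at h14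
            exact_mod_cast h14
          have h15 : (X : ℝ) ≤ x₁ := by exact_mod_cast hx
          linarith
      have h16 : (0 : ℝ) ≤ (x₁ : ℝ) + p₀ := by positivity
      have h17 : (0 : ℝ) ≤ ((x₁ : ℝ) + p₀) * ((X : ℝ) ^ (ε + δ) - 1) :=
        mul_nonneg h16 (by linarith)
      have h18 : (x₁ : ℝ) + p₀ + (X : ℝ) ^ (ε + δ) ≤ ((x₁ : ℝ) + p₀ + 1) * (X : ℝ) ^ (ε + δ) := by
        nlinarith
      refine le_trans ?_ h18
      refine le_trans (le_of_eq ?_) (h10.trans (by linarith))
      congr!)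
  refine ⟨fun d θ y hθ hsum => ?_, fun θ y hθ => ?_⟩
  · filter_upwards [ae_simultaneous hε.le hcount d θ y hθ hsum] with x hx
    obtain ⟨q₀, h⟩ := hx
    refine ⟨q₀, fun p hp hpp hcl => ?_⟩
    by_contra hcon
    exact h p hp hcl ⟨hpp, hcon⟩
  · refine ⟨_, dim_denominators hε.le hcount θ y hθ, fun x hx => ?_⟩
    simp only [Set.mem_setOf_eq, not_forall, not_exists, not_and] at hx
    obtain ⟨q₀, h⟩ := hx
    refine ⟨q₀, fun p hp hpp ⟨a, ha⟩ => ?_⟩
    by_contra hcon
    exact h p hp ⟨hpp, hcon⟩ a ha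

end Pool.Agent.Results.MP_18a8a6_lc.Denominators
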