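import Pool.Agent.Results.MP_18a8a6_lc.AlmostAllPrimes
import Pool.Agent.X123.ML.Base

/-!
# Primitive roots modulo EVERY prime near the points outside a small set

For every `ε > 0` and every `B` there is a polynomial-time computable list `F p` such that for every map `s` from the
natural numbers to a metric space, for example `s(p)` = the fractional part of `β p` or `s(p) = p` as an `l`-adic integer,
and every `τ > 0` all points `z` outside a set of Hausdorff dimension at most `ε / τ` have the following property: for EVERY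
large prime `p` with `|z - s(p)| ≤ p ^ (-τ)`, all but a fraction `(size p) ^ (-B)` of the entries of `F p` are primitive
roots modulo `p`.
-/

set_option autoImplicit false

open scoped ENNReal

namespace Pool.Agent.Results.MP_18a8a6_lc.PrimesNearTargets

open Finset MeasureTheory
open AlmostAllPrimes (PolyTimeList IsPrimRoot)
open Pool.Agent.X123.ML

open Classical in
/-- all but a fraction `(size p) ^ (-B)` of the entries of the list `F p` are primitive roots modulo `p` -/
def MostlyPrimRoots (F : ℕ → List ℕ) (B p : ℕ) : Prop :=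
  p.size ^ B * #{i ∈ range (F p).length | ¬ IsPrimRoot p ((F p).getD i 0)} ≤ (F p).length

/-- for every prime `p ≥ p₀` with `|z - s(p)| ≤ p ^ (-τ)` the list `F p` consists mostly of primitive roots -/
def Works {M : Type} [MetricSpace M] (s : ℕ → M) (F : ℕ → List ℕ) (B : ℕ) (τ : ℝ) (z : M) : Prop :=
  ∃ p₀ : ℕ, ∀ p : ℕ, p.Prime → p₀ ≤ p → dist z (s p) ≤ (p : ℝ) ^ (-τ) → MostlyPrimRoots F B p

/-- the exceptional primes -/
def Exc (F : ℕ → List ℕ) (B : ℕ) : Set ℕ := {p | p.Prime ∧ ¬ MostlyPrimRoots F B p}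

lemma one_le {F : ℕ → List ℕ} {B p : ℕ} (h : p ∈ Exc F B) : (1 : ℝ) ≤ (p : ℝ) := by
  exact_mod_cast h.1.one_le

/-- For every `ε > 0` and every `B` there are `C` and a polynomial-time computable list `F p` of `n ^ C` numbers, `n`
the number of binary digits of `p`, such that: (1) for every map `s` from the natural numbers to a metric space and every
`τ > 0` there is a set `E` of Hausdorff dimension at most `ε / τ` such that for each `z` outside `E`, for EVERY large prime
`p` with `|z - s(p)| ≤ p ^ (-τ)`, all but a fraction `(size p) ^ (-B)` of the entries of `F p` are primitive roots modulo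
`p`; (2) if `s` is a map to the real numbers and `τ > ε`, this holds for almost all real `z`. -/
theorem result (ε : ℝ) (hε : 0 < ε) (B : ℕ) :
    ∃ (C : ℕ) (F : ℕ → List ℕ), PolyTimeList F ∧ (∀ p : ℕ, (F p).length = p.size ^ C) ∧
      (∀ (M : Type) [MetricSpace M] (s : ℕ → M) (τ : ℝ), 0 < τ →
        ∃ E : Set M, dimH E ≤ ENNReal.ofReal (ε / τ) ∧ ∀ z : M, z ∉ E → Works s F B τ z) ∧
      ∀ (s : ℕ → ℝ) (τ : ℝ), ε < τ → ∀ᵐ z : ℝ, Works s F B τ z := by
  classical
  obtain ⟨C, F, hF, hlen, x₀, hx⟩ := AlmostAllPrimes.result ε hε B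
  have hcnt : Cnt (Exc F B) (fun p : ℕ => Real.log (p : ℝ)) ε := by
    intro δ hδ
    refine ⟨((x₀ : ℝ) + 1) ^ ε, fun t ht => ?_⟩
    have hexp : (1 : ℝ) ≤ Real.exp t := Real.one_le_exp ht
    obtain ⟨x, hxd⟩ : ∃ x : ℕ, x = max x₀ ⌊Real.exp t⌋₊ := ⟨_, rfl⟩
    have hx0 : x₀ ≤ x := by rw [hxd]; exact le_max_left _ _
    have hxle : (x : ℝ) ≤ ((x₀ : ℝ) + 1) * Real.exp t := by
      have h1 : (⌊Real.exp t⌋₊ : ℝ) ≤ Real.exp t := Nat.floor_le (by linarith)
      have h2 : (0 : ℝ) ≤ (x₀ : ℝ) := Nat.cast_nonneg _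
      rw [hxd, Nat.cast_max]
      apply max_le <;> nlinarith
    have hsub : {p | p ∈ Exc F B ∧ Real.log (p : ℝ) ≤ t} ⊆
        (↑((range (x + 1)).filter (fun p => p ∈ Exc F B)) : Set ℕ) := by
      rintro p ⟨h1, h2⟩
      have hp0 : (0 : ℝ) < (p : ℝ) := lt_of_lt_of_le one_pos (one_le h1)
      have h3 : (p : ℝ) ≤ Real.exp t := (Real.log_le_iff_le_exp hp0).1 h2
      have h4 : p ≤ x := by
        rw [hxd]
        exact (Nat.le_floor h3).trans (le_max_right _ _)
      simp only [Finset.coe_filter, Finset.mem_range]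
      exact ⟨by omega, h1⟩
    refine ⟨(Finset.finite_toSet _).subset hsub, ?_⟩
    have h5 : {p | p ∈ Exc F B ∧ Real.log (p : ℝ) ≤ t}.ncard ≤
        #((range (x + 1)).filter (fun p => p ∈ Exc F B)) := by
      rw [← Set.ncard_coe_finset]
      exact Set.ncard_le_ncard hsub (Finset.finite_toSet _)
    have h6 : (#((range (x + 1)).filter (fun p => p ∈ Exc F B)) : ℝ) ≤ (x : ℝ) ^ ε := by
      refine le_trans ?_ (hx x hx0)
      rw [Nat.cast_le]
      apply Finset.card_le_card
      intro p hp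
      rw [Finset.mem_filter] at hp ⊢
      exact ⟨hp.1, hp.2.1, hp.2.2⟩
    calc (({p | p ∈ Exc F B ∧ Real.log (p : ℝ) ≤ t}.ncard : ℕ) : ℝ)
        ≤ (#((range (x + 1)).filter (fun p => p ∈ Exc F B)) : ℝ) := by exact_mod_cast h5
      _ ≤ (x : ℝ) ^ ε := h6
      _ ≤ (((x₀ : ℝ) + 1) * Real.exp t) ^ ε := Real.rpow_le_rpow (by positivity) hxle hε.le
      _ = ((x₀ : ℝ) + 1) ^ ε * Real.exp (ε * t) := by
          rw [Real.mul_rpow (by positivity) (by positivity), ← Real.exp_mul, mul_comm t]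
      _ ≤ ((x₀ : ℝ) + 1) ^ ε * Real.exp ((ε + δ) * t) := by
          apply mul_le_mul_of_nonneg_left _ (by positivity)
          apply Real.exp_le_exp.2
          nlinarith
  have main : ∀ (M : Type) [MetricSpace M] (s : ℕ → M) (τ : ℝ), 0 < τ →
        ∃ E : Set M, dimH E ≤ ENNReal.ofReal (ε / τ) ∧ ∀ z : M, z ∉ E → Works s F B τ z := by
    intro M _ s τ hτ
    obtain ⟨E, hE, hE2⟩ := pos_dim (fun _ : Unit => Exc F B)
      (fun p : ℕ => Real.log (p : ℝ)) (fun _ p hp => Real.log_nonneg (one_le hp)) hε.le hτ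
      (fun _ => hcnt) s
    refine ⟨E, hE, fun z hz => ?_⟩
    obtain ⟨p₀, hp₀⟩ := (hE2 z hz ()).bddAbove
    refine ⟨p₀ + 1, fun p hp hle hdist => ?_⟩
    by_contra hcon
    have h1 : p ∈ Exc F B := ⟨hp, hcon⟩
    have h2 := hp₀ ⟨h1, by
      rw [exp_eq_pow (lt_of_lt_of_le one_pos (one_le h1))]
      exact hdist⟩
    omega
  refine ⟨C, F, hF, hlen, main, fun s τ hlt => ?_⟩
  have hτ : 0 < τ := hε.trans hlt
  obtain ⟨E, hE, hE2⟩ := main ℝ s τ hτ
  have h3 : volume E = 0 := null_real (by rwa [div_lt_one hτ]) hE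
  filter_upwards [measure_eq_zero_iff_ae_notMem.1 h3] with z hz
  exact hE2 z hz

end Pool.Agent.Results.MP_18a8a6_lc.PrimesNearTargets
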