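import Mathlib
import Pool.Agent.H595R2.PR.Core
import Pool.Agent.H595R2.PR.FEW
import Pool.Agent.X16.NW.E

/-!
# Primitive roots modulo EVERY prime near the powers of a real number

For every `ε > 0` and `B` one polynomial-time computable list `F p` works for all real `t > 1` outside a set of Hausdorff
dimension at most `ε / (1 - θ)`: for all large `n` and EVERY prime `p` with `|p - t ^ n| ≤ t ^ (θ n)`, all but a fraction
`(size p) ^ (-B)` of the entries of `F p` are primitive roots modulo `p`. For `ε + θ < 1` this holds for almost all `t > 1`.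
The same is true for `t ^ κ_n` with real exponents such that `κ_n / log n → ∞`, and for the numbers `n ^ t` (for almost all
`t > 1 / (1 - ε - θ)`); in general for families of functions `f_n : I → ℝ` whose logarithmic slopes are locally bounded from
below by positive constants and which are locally bounded from below by sequences with exponent of convergence at most `τ`.
The starting result `WindowsAroundDilates` is about the linear families `t v_n`.
-/

set_option autoImplicit false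

namespace Pool.Agent.Results.MP_18a8a6_lc.RealPowers

open Finset
open Pool.Agent.X16.NW (ExpLe Expanding LocExpanding)

/-- `F` is computable in polynomial time: some function on bit strings computed by a Turing machine
(Mathlib's `TM2ComputableInPolyTime`) in polynomially many steps sends the binary digits of `p` to
the code of the list `F p`. -/
def PolyTimeList (F : ℕ → List ℕ) : Prop :=
  ∃ f : List Bool → List Bool, NPC.PolyTime f ∧ ∀ p : ℕ, f (Nat.bits p) = NPC.bits (F p)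

/-- `g` is a primitive root modulo `p` -/
def IsPrimRoot (p g : ℕ) : Prop := orderOf (g : ZMod p) = p - 1

open Classical in
/-- all but a fraction `(size p) ^ (-B)` of the entries of the list `F p` are primitive roots modulo `p` -/
def MostlyPrimRoots (F : ℕ → List ℕ) (B p : ℕ) : Prop :=
  p.size ^ B * #{i ∈ range (F p).length | ¬ IsPrimRoot p ((F p).getD i 0)} ≤ (F p).length

section aux

open H595R2.PR Filter Topology

theorem prim_of_gen {A C p a : ℕ} (hp : p.Prime) (h : Gen A C p a) (ht : Gam p (p.size ^ A) = ⊤) :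
    IsPrimRoot p ((cands A C p).getD a 0) := by
  have : Fact p.Prime := ⟨hp⟩
  obtain ⟨u, hu1, hu2⟩ := h
  unfold IsPrimRoot
  rw [← hu1, orderOf_units, ← Nat.card_zpowers, hu2, ht, Subgroup.card_top,
    Nat.card_eq_fintype_card, ZMod.card_units]

end aux

open Classical H595R2.PR Filter Topology MeasureTheory in
/-- For every `ε > 0` and every `B` there are `C` and a polynomial-time computable list `F p` of `n ^ C` numbers, `n`
the number of binary digits of `p`, such that: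
(1) for every locally expanding family `f` on `I` with exponent `τ ≥ 0`, and `0 ≤ θ < 1`, for all `t ∈ I` outside a set of
Hausdorff dimension at most `(ε + τ) / (1 - θ)` there is `n₀` such that for all `n ≥ n₀` and EVERY prime `p` with
`|p - f_n(t)| ≤ f_n(t) ^ θ`, all but a fraction `(size p) ^ (-B)` of the entries of `F p` are primitive roots modulo `p`;
(2) if `κ_n / log n → ∞`, `0 ≤ θ` and `ε + θ < 1`, then this holds for the windows `|p - t ^ κ_n| ≤ t ^ (θ κ_n)` for almost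
all `t > 1`; (3) it holds for the windows `|p - n ^ t| ≤ n ^ (θ t)` for almost all `t > 1 / (1 - ε - θ)`.
(4) `t ^ κ_n` is locally expanding on `(1, ∞)` with `τ = 0` if `κ_n / log n → ∞`, and `n ^ t` on `[a, ∞)` with
`τ = 1 / a`. -/
theorem result :
    (∀ (ε : ℝ), 0 < ε → ∀ B : ℕ, ∃ (C : ℕ) (F : ℕ → List ℕ), PolyTimeList F ∧ (∀ p : ℕ, (F p).length = p.size ^ C) ∧
      (∀ (f : ℕ → ℝ → ℝ) (I : Set ℝ) (τ θ : ℝ), 0 ≤ τ → LocExpanding f I τ → 0 ≤ θ → θ < 1 →
        ∃ E : Set ℝ, dimH E ≤ ENNReal.ofReal ((ε + τ) / (1 - θ)) ∧ ∀ t ∈ I, t ∉ E →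
          ∃ n₀ : ℕ, ∀ n : ℕ, n₀ ≤ n → ∀ p : ℕ, p.Prime → |(p : ℝ) - f n t| ≤ (f n t) ^ θ →
            MostlyPrimRoots F B p) ∧
      (∀ κ : ℕ → ℝ, Tendsto (fun n : ℕ => κ n / Real.log n) atTop atTop → ∀ θ : ℝ, 0 ≤ θ → ε + θ < 1 →
        ∀ᵐ t : ℝ, 1 < t → ∃ n₀ : ℕ, ∀ n : ℕ, n₀ ≤ n → ∀ p : ℕ, p.Prime → |(p : ℝ) - t ^ κ n| ≤ (t ^ κ n) ^ θ →
          MostlyPrimRoots F B p) ∧
      (∀ θ : ℝ, 0 ≤ θ → ε + θ < 1 → ∀ᵐ t : ℝ, 1 / (1 - ε - θ) < t → ∃ n₀ : ℕ, ∀ n : ℕ, n₀ ≤ n → ∀ p : ℕ, p.Prime →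
        |(p : ℝ) - (n : ℝ) ^ t| ≤ ((n : ℝ) ^ t) ^ θ → MostlyPrimRoots F B p)) ∧
    (∀ κ : ℕ → ℝ, Tendsto (fun n : ℕ => κ n / Real.log n) atTop atTop →
      LocExpanding (fun n t => t ^ κ n) (Set.Ioi 1) 0) ∧
    (∀ a : ℝ, 0 < a → LocExpanding (fun n t => (n : ℝ) ^ t) (Set.Ici a) (1 / a)) := by
  refine ⟨fun ε hε B => ?_, fun κ hκ => Pool.Agent.X16.NW.loc_rpow κ hκ,
    fun a ha => Pool.Agent.X16.NW.loc_npow a ha⟩
  set ε' : ℝ := min ε (1 / 2) with hε'
  have hε0 : 0 < ε' := lt_min hε (by norm_num)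
  obtain ⟨A, hA⟩ := H595R2.PR.Gam_top ε' hε0
  obtain ⟨x₁, hx₁⟩ := hA A le_rfl
  obtain ⟨p₀, hp₀⟩ := H595R2.PR.core A (A + B + 2)
  set F := H595R2.PR.cands A (A + B + 2) with hF
  have hlen : ∀ p : ℕ, (F p).length = p.size ^ (A + B + 2) := fun p => by
    simp [hF, H595R2.PR.cands]
  have hmain : ∀ p : ℕ, p₀ ≤ p → p.Prime → H595R2.PR.Gam p (p.size ^ A) = ⊤ →
      MostlyPrimRoots F B p := by
    intro p hp hpp ht
    have h0 : #{i ∈ range (p.size ^ (A + B + 2)) | ¬ IsPrimRoot p ((F p).getD i 0)} ≤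
        p.size ^ (A + 1) := by
      refine le_trans (card_le_card ?_) ((hp₀ p hp hpp).trans (by rw [pow_succ]))
      intro i hi
      obtain ⟨h1, h2⟩ := mem_filter.1 hi
      exact mem_filter.2 ⟨h1, fun hg => h2 (prim_of_gen hpp hg ht)⟩
    unfold MostlyPrimRoots
    rw [hlen]
    calc p.size ^ B * _ ≤ p.size ^ B * p.size ^ (A + 1) := Nat.mul_le_mul_left _ h0
      _ = p.size ^ (A + B + 1) := by ring
      _ ≤ p.size ^ (A + B + 2) := Nat.pow_le_pow_right (Nat.size_pos.2 hpp.pos) (by omega)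
  refine ⟨A + B + 2, F, H595R2.PR.polyTime_cands A (A + B + 2), hlen, ?_⟩
  have hcount := Pool.Agent.X16.NW.count_filter {p : ℕ | p.Prime ∧ ¬ MostlyPrimRoots F B p} (s := ε) hε.le (by
      intro δ hδ
      refine ⟨(x₁ : ℝ) + p₀ + 1, fun X hX => ?_⟩
      have hX1 : (1 : ℝ) ≤ X := by exact_mod_cast hX
      have hXp : (1 : ℝ) ≤ (X : ℝ) ^ (ε + δ) := Real.one_le_rpow hX1 (by positivity)
      have hsub : (Ioc 0 X).filter (fun t => t ∈ {p : ℕ | p.Prime ∧ ¬ MostlyPrimRoots F B p}) ⊆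
          range p₀ ∪ (range (X + 1)).filter (fun p => p.Prime ∧
            H595R2.PR.Gam p (p.size ^ A) ≠ ⊤) := by
        intro p hp
        obtain ⟨h1, h2, h3⟩ := mem_filter.1 hp
        rw [mem_union, mem_range]
        by_contra hc
        push Not at hc
        obtain ⟨h4, h5⟩ := hc
        have h6 : H595R2.PR.Gam p (p.size ^ A) = ⊤ := by
          by_contra h7
          exact h5 (mem_filter.2 ⟨mem_range.2 (by have := (mem_Ioc.1 h1).2; omega), h2, h7⟩)
        exact h3 (hmain p h4 h2 h6)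
      have h9 := (card_le_card hsub).trans (card_union_le _ _)
      rw [card_range] at h9
      have h10 : (((Ioc 0 X).filter (fun t => t ∈ {p : ℕ | p.Prime ∧ ¬ MostlyPrimRoots F B p})).card : ℝ) ≤
          p₀ + #((range (X + 1)).filter (fun p => p.Prime ∧
          H595R2.PR.Gam p (p.size ^ A) ≠ ⊤)) := by exact_mod_cast h9
      have h11 : (#((range (X + 1)).filter (fun p => p.Prime ∧
          H595R2.PR.Gam p (p.size ^ A) ≠ ⊤)) : ℝ) ≤ (x₁ : ℝ) + (X : ℝ) ^ (ε + δ) := by
        rcases le_total x₁ X with hx | hx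
        · refine (hx₁ X hx).trans ?_
          have h12 : (X : ℝ) ^ ε' ≤ (X : ℝ) ^ (ε + δ) :=
            Real.rpow_le_rpow_of_exponent_le hX1 ((min_le_left _ _).trans (by linarith))
          have h13 : (0 : ℝ) ≤ x₁ := by positivity
          linarith
        · have h12 : (#((range (X + 1)).filter (fun p => p.Prime ∧
              H595R2.PR.Gam p (p.size ^ A) ≠ ⊤)) : ℝ) ≤ X := by
            have h13 : (range (X + 1)).filter (fun p => p.Prime ∧
                H595R2.PR.Gam p (p.size ^ A) ≠ ⊤) ⊆ Ioc 0 X := by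
              intro p hp
              obtain ⟨h1, h2, _⟩ := mem_filter.1 hp
              exact mem_Ioc.2 ⟨h2.pos, by have := mem_range.1 h1; omega⟩
            have h14 := card_le_card h13
            rw [Nat.card_Ioc, Nat.sub_zero] at h14
            exact_mod_cast h14
          have h15 : (X : ℝ) ≤ x₁ := by exact_mod_cast hx
          linarith
      have h16 : (0 : ℝ) ≤ (x₁ : ℝ) + p₀ := by positivity
      have h17 : (0 : ℝ) ≤ ((x₁ : ℝ) + p₀) * ((X : ℝ) ^ (ε + δ) - 1) :=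
        mul_nonneg h16 (by linarith)
      have h18 : (x₁ : ℝ) + p₀ + (X : ℝ) ^ (ε + δ) ≤ ((x₁ : ℝ) + p₀ + 1) * (X : ℝ) ^ (ε + δ) := by
        nlinarith
      refine le_trans ?_ h18
      refine le_trans (le_of_eq ?_) (h10.trans (by linarith))
      congr!)
  refine ⟨fun f I τ θ hτ hf hθ hθ1 => ?_, fun κ hκ θ hθ hθ1 => ?_, fun θ hθ hθ1 => ?_⟩
  · obtain ⟨E, hE, h⟩ := Pool.Agent.X16.NW.windows_loc {p : ℕ | p.Prime ∧ ¬ MostlyPrimRoots F B p}
      (fun p => (p : ℝ)) hτ hε.le hθ hθ1 hcount I f hf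
    refine ⟨E, hE, fun t ht htE => ?_⟩
    obtain ⟨n₀, hn⟩ := h t ht htE
    refine ⟨n₀, fun n hn1 p hp hpn => ?_⟩
    by_contra hcon
    exact absurd (hn n hn1 p ⟨hp, hcon⟩) (not_lt.2 hpn)
  · filter_upwards [Pool.Agent.X16.NW.ae_rpow {p : ℕ | p.Prime ∧ ¬ MostlyPrimRoots F B p}
      (fun p => (p : ℝ)) hε.le hcount κ hκ θ hθ hθ1] with t h ht
    obtain ⟨n₀, hn⟩ := h ht
    refine ⟨n₀, fun n hn1 p hp hpn => ?_⟩
    by_contra hcon
    exact absurd (hn n hn1 p ⟨hp, hcon⟩) (not_lt.2 hpn)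
  · filter_upwards [Pool.Agent.X16.NW.ae_npow {p : ℕ | p.Prime ∧ ¬ MostlyPrimRoots F B p}
      (fun p => (p : ℝ)) hε.le hcount θ hθ hθ1] with t h ht
    obtain ⟨n₀, hn⟩ := h ht
    refine ⟨n₀, fun n hn1 p hp hpn => ?_⟩
    by_contra hcon
    exact absurd (hn n hn1 p ⟨hp, hcon⟩) (not_lt.2 hpn)

end Pool.Agent.Results.MP_18a8a6_lc.RealPowers
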